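import Mathlib
import Pool.Agent.Helper50.Rec.Basic

/-!
# REC-9: projection to the rational factor
-/

open MeasureTheory Polynomial Finset Filter Topology
open scoped BigOperators ComplexConjugate

namespace Pool.Agent.Helper50.Rec

variable {X : Type} [MeasurableSpace X]

namespace RatP

lemma memLp {f : X → ℂ} (hf : B1 f) (S : Sys X) : MemLp f 2 S.μ :=
  MemLp.of_bound hf.1.aestronglyMeasurable 1 (Eventually.of_forall hf.2)

/-- class of a bounded function in `L²` -/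
noncomputable def cl (S : Sys X) {f : X → ℂ} (hf : B1 f) : Lp ℂ 2 S.μ := (memLp hf S).toLp f

lemma coe_cl (S : Sys X) {f : X → ℂ} (hf : B1 f) : ∀ᵐ x ∂S.μ, cl S hf x = f x :=
  MemLp.coeFn_toLp _

/-- the Koopman operator -/
noncomputable def Uo (S : Sys X) (n : ℤ) : Lp ℂ 2 S.μ →L[ℂ] Lp ℂ 2 S.μ :=
  (Lp.compMeasurePreservingₗᵢ ℂ (S.τ n) (S.mp n)).toContinuousLinearMap

lemma Uo_cl (S : Sys X) (n : ℤ) {f : X → ℂ} (hf : B1 f) : Uo S n (cl S hf) = cl S (hf.sh S n) := rfl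

lemma coe_Uo (S : Sys X) (n : ℤ) (G : Lp ℂ 2 S.μ) : ∀ᵐ x ∂S.μ, Uo S n G x = G (S.τ n x) :=
  Lp.coeFn_compMeasurePreserving G (S.mp n)

lemma norm_Uo_le (S : Sys X) (n : ℤ) : ‖Uo S n‖ ≤ 1 := LinearIsometry.norm_toContinuousLinearMap_le _

lemma Uo_iter (S : Sys X) (n : ℤ) {f : X → ℂ} (hf : B1 f) (k : ℕ) :
    (Uo S n)^[k] (cl S hf) = cl S (hf.sh S (k * n)) := by
  induction k with
  | zero =>
    simp only [Function.iterate_zero, id_eq]
    unfold cl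
    congr 1
    simp [S.sh_zero]
  | succ k ih =>
    rw [Function.iterate_succ_apply', ih, Uo_cl]
    unfold cl
    congr 1
    rw [S.sh_sh]
    congr 1
    push_cast
    ring

lemma birk_ae (S : Sys X) (n : ℤ) {f : X → ℂ} (hf : B1 f) (N : ℕ) :
    ∀ᵐ x ∂S.μ, birkhoffAverage ℂ (Uo S n) _root_.id N (cl S hf) x
      = avg N (fun k => S.sh (k * n) f) x := by
  unfold birkhoffAverage birkhoffSum
  simp only [id_eq]
  have h1 : ∀ᵐ x ∂S.μ, ∀ k : ℕ, (Uo S n)^[k] (cl S hf) x = S.sh (k * n) f x := by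
    rw [ae_all_iff]
    intro k
    rw [Uo_iter]
    exact coe_cl S _
  filter_upwards [Lp.coeFn_smul ((N : ℂ)⁻¹) (∑ k ∈ range N, (Uo S n)^[k] (cl S hf)),
    Lp.coeFn_finsetSum (range N) (fun k => (Uo S n)^[k] (cl S hf)), h1] with x h2 h3 h4
  rw [h2, Pi.smul_apply, h3, smul_eq_mul, Finset.sum_apply]
  unfold avg
  congr 1
  exact Finset.sum_congr rfl fun k _ => h4 k

/-- closed conditions pass to limits -/
lemma lp_closed (S : Sys X) {K : Set ℂ} (hK : IsClosed K) (g : ℕ → Lp ℂ 2 S.μ) (G : Lp ℂ 2 S.μ)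
    (hg : ∀ n, ∀ᵐ x ∂S.μ, g n x ∈ K) (h : Tendsto g atTop (𝓝 G)) : ∀ᵐ x ∂S.μ, G x ∈ K := by
  obtain ⟨φ, -, hφ⟩ := (tendstoInMeasure_of_tendsto_Lp h).exists_seq_tendsto_ae
  have h2 : ∀ᵐ x ∂S.μ, ∀ n, g n x ∈ K := ae_all_iff.mpr hg
  filter_upwards [hφ, h2] with x h3 h4
  exact hK.mem_of_tendsto h3 (Eventually.of_forall fun n => h4 _)

/-- a good representative -/
lemma exists_rep (S : Sys X) {K : Set ℂ} (hK : IsClosed K) (h0 : (0 : ℂ) ∈ K)
    (hK1 : ∀ z ∈ K, ‖z‖ ≤ 1) (g : Lp ℂ 2 S.μ) (hg : ∀ᵐ x ∂S.μ, g x ∈ K) :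
    ∃ G : X → ℂ, B1 G ∧ (∀ x, G x ∈ K) ∧ ∀ᵐ x ∂S.μ, g x = G x := by
  classical
  have hm : Measurable (g : X → ℂ) := (Lp.stronglyMeasurable g).measurable
  have hset : MeasurableSet {x | g x ∈ K} := hm hK.measurableSet
  refine ⟨fun x => if g x ∈ K then g x else 0, ⟨Measurable.ite hset hm measurable_const, ?_⟩, ?_, ?_⟩
  · intro x
    show ‖if g x ∈ K then g x else 0‖ ≤ 1
    split_ifs with h
    · exact hK1 _ h
    · simp
  · intro x
    show (if g x ∈ K then g x else 0) ∈ K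
    split_ifs with h
    · exact h
    · exact h0
  · filter_upwards [hg] with x h
    rw [if_pos h]

/-- the invariant functions -/
noncomputable def V (S : Sys X) (n : ℤ) : Submodule ℂ (Lp ℂ 2 S.μ) :=
  (Uo S n).eqLocus (1 : Lp ℂ 2 S.μ →L[ℂ] Lp ℂ 2 S.μ)

lemma mem_V (S : Sys X) (n : ℤ) (G : Lp ℂ 2 S.μ) :
    G ∈ V S n ↔ ∀ᵐ x ∂S.μ, G (S.τ n x) = G x := by
  have h1 : G ∈ V S n ↔ Uo S n G = G := Iff.rfl
  rw [h1, Lp.ext_iff]
  constructor
  · intro h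
    filter_upwards [h, coe_Uo S n G] with x h2 h3
    rw [← h3, h2]
  · intro h
    filter_upwards [h, coe_Uo S n G] with x h2 h3
    rw [h3, h2]

lemma V_mul (S : Sys X) (n : ℤ) (k : ℕ) : V S n ≤ V S (n * k) := by
  intro G hG
  rw [mem_V] at hG ⊢
  induction k with
  | zero => simp [S.τ_zero]
  | succ k ih =>
    filter_upwards [ih, S.ae_sh (n * k) hG] with x h1 h2
    have : n * ((k + 1 : ℕ) : ℤ) = n + n * k := by push_cast; ring
    rw [this, S.τ_add, h2, h1]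

instance (S : Sys X) (n : ℤ) : CompleteSpace (V S n) := by
  unfold V
  have : IsClosed (((Uo S n).eqLocus (1 : Lp ℂ 2 S.μ →L[ℂ] Lp ℂ 2 S.μ) : Submodule ℂ (Lp ℂ 2 S.μ)) :
      Set (Lp ℂ 2 S.μ)) := isClosed_eq (Uo S n).continuous continuous_id
  exact this.completeSpace_coe

/-- the projection has values where the function has its values -/
lemma proj_mem (S : Sys X) (n : ℤ) {f : X → ℂ} (hf : B1 f) {K : Set ℂ} (hK : IsClosed K)
    (hKa : ∀ (N : ℕ) (z : ℕ → ℂ), (∀ k, z k ∈ K) → (N : ℂ)⁻¹ * ∑ k ∈ range N, z k ∈ K)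
    (hfK : ∀ x, f x ∈ K) : ∀ᵐ x ∂S.μ, (V S n).starProjection (cl S hf) x ∈ K := by
  have h1 := ContinuousLinearMap.tendsto_birkhoffAverage_orthogonalProjection (Uo S n)
    (norm_Uo_le S n) (cl S hf)
  refine lp_closed S hK (fun N => birkhoffAverage ℂ (Uo S n) _root_.id N (cl S hf)) _ ?_ h1
  intro N
  filter_upwards [birk_ae S n hf N] with x hx
  rw [hx]
  exact hKa N _ fun k => hfK _

lemma int_eq_inner (S : Sys X) (u w : Lp ℂ 2 S.μ) (U W : X → ℂ) (hu : ∀ᵐ x ∂S.μ, u x = U x)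
    (hw : ∀ᵐ x ∂S.μ, w x = W x) : S.int (fun x => U x * conj (W x)) = inner ℂ w u := by
  rw [L2.inner_def]
  unfold Sys.int
  apply integral_congr_ae
  filter_upwards [hu, hw] with x h1 h2
  rw [RCLike.inner_apply, h1, h2]

lemma sq_eq_norm (S : Sys X) (u : Lp ℂ 2 S.μ) (U : X → ℂ) (hu : ∀ᵐ x ∂S.μ, u x = U x) :
    S.sq U = ‖u‖ ^ 2 := by
  have h1 := S.sq_eq_int U
  rw [int_eq_inner S u u U U hu hu, inner_self_eq_norm_sq_to_K] at h1
  have h2 : ((S.sq U : ℝ) : ℂ) = ((‖u‖ ^ 2 : ℝ) : ℂ) := by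
    rw [h1]; push_cast; rfl
  exact Complex.ofReal_injective h2

/-- invariant functions are in the subspace -/
lemma cl_mem_V (S : Sys X) {R : ℕ} {G : X → ℂ} (hG : S.Inv R G) : cl S hG.1 ∈ V S R := by
  rw [mem_V]
  filter_upwards [coe_cl S hG.1, S.ae_sh R (coe_cl S hG.1), hG.2] with x h1 h2 h3
  rw [h1, h2, h3]

/-- the subspaces of functions invariant under factorial powers -/
lemma V_mono (S : Sys X) : Monotone fun i : ℕ => V S ((i.factorial : ℕ) : ℤ) := by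
  intro i j hij
  obtain ⟨k, hk⟩ := Nat.factorial_dvd_factorial hij
  have := V_mul S ((i.factorial : ℕ) : ℤ) k
  simp only [hk]
  push_cast
  exact this

lemma V_le_fact (S : Sys X) (R : ℕ) (hR : 1 ≤ R) : V S R ≤ V S ((R.factorial : ℕ) : ℤ) := by
  obtain ⟨k, hk⟩ := Nat.dvd_factorial (by omega : 0 < R) le_rfl
  have := V_mul S (R : ℤ) k
  rw [hk]
  push_cast
  exact this

/-- the closed unit disc, and its intersection with the nonnegative reals -/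
lemma disc_closed : IsClosed {z : ℂ | ‖z‖ ≤ 1} := isClosed_le continuous_norm continuous_const

lemma pos_closed : IsClosed {z : ℂ | ‖z‖ ≤ 1 ∧ 0 ≤ z.re ∧ z.im = 0} :=
  disc_closed.inter ((isClosed_le continuous_const Complex.continuous_re).inter
    (isClosed_eq Complex.continuous_im continuous_const))

lemma disc_avg (N : ℕ) (z : ℕ → ℂ) (hz : ∀ k, z k ∈ {z : ℂ | ‖z‖ ≤ 1}) :
    (N : ℂ)⁻¹ * ∑ k ∈ range N, z k ∈ {z : ℂ | ‖z‖ ≤ 1} := norm_avg_le N hz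

lemma pos_avg (N : ℕ) (z : ℕ → ℂ) (hz : ∀ k, z k ∈ {z : ℂ | ‖z‖ ≤ 1 ∧ 0 ≤ z.re ∧ z.im = 0}) :
    (N : ℂ)⁻¹ * ∑ k ∈ range N, z k ∈ {z : ℂ | ‖z‖ ≤ 1 ∧ 0 ≤ z.re ∧ z.im = 0} := by
  have e : (N : ℂ)⁻¹ = (((N : ℝ)⁻¹ : ℝ) : ℂ) := by push_cast; rfl
  refine ⟨norm_avg_le N fun k => (hz k).1, ?_, ?_⟩
  · rw [e, Complex.re_ofReal_mul, Complex.re_sum]
    exact mul_nonneg (by positivity) (Finset.sum_nonneg fun k _ => (hz k).2.1)
  · rw [e, Complex.im_ofReal_mul, Complex.im_sum, Finset.sum_eq_zero fun k _ => (hz k).2.2, mul_zero]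

end RatP

open RatP in
/-- REC-9 -/
theorem rat_proj (S : Sys X) (f : X → ℂ) (hf : B1 f) :
    ∃ ρ : X → ℂ, B1 ρ ∧ S.RatNull (fun x => f x - ρ x) ∧
      ∀ ε : ℝ, 0 < ε → ∃ R : ℕ, 1 ≤ R ∧ ∃ G : X → ℂ, S.Inv R G ∧
        S.sq (fun x => ρ x - G x) ≤ ε ∧
        (∀ G', S.Inv R G' → S.int (fun x => (f x - G x) * conj (G' x)) = 0) ∧
        ((∀ x, ∃ y : ℝ, 0 ≤ y ∧ f x = y) → ∀ x, ∃ y : ℝ, 0 ≤ y ∧ G x = y) := by
  set W : Submodule ℂ (Lp ℂ 2 S.μ) :=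
    (⨆ i : ℕ, V S ((i.factorial : ℕ) : ℤ)).topologicalClosure with hW
  have : CompleteSpace W := (Submodule.isClosed_topologicalClosure _).completeSpace_coe
  have hlim : Tendsto (fun i : ℕ => (V S ((i.factorial : ℕ) : ℤ)).starProjection (cl S hf)) atTop
      (𝓝 (W.starProjection (cl S hf))) :=
    Submodule.starProjection_tendsto_closure_iSup _ (V_mono S) _
  have hρ1 : ∀ᵐ x ∂S.μ, W.starProjection (cl S hf) x ∈ {z : ℂ | ‖z‖ ≤ 1} :=
    lp_closed S disc_closed _ _ (fun i => proj_mem S _ hf disc_closed disc_avg hf.2) hlim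
  obtain ⟨ρ, hρB, -, hρ⟩ := exists_rep S disc_closed (by simp) (fun z hz => hz) _ hρ1
  refine ⟨ρ, hρB, ?_, ?_⟩
  · intro R hR G' hG'
    have h1 : cl S hG'.1 ∈ W := by
      apply Submodule.le_topologicalClosure
      exact (le_iSup (fun i : ℕ => V S ((i.factorial : ℕ) : ℤ)) R) (V_le_fact S R hR (cl_mem_V S hG'))
    have h2 := W.starProjection_inner_eq_zero (cl S hf) (cl S hG'.1) h1
    rw [int_eq_inner S (cl S hf - W.starProjection (cl S hf)) (cl S hG'.1) _ _ _ (coe_cl S hG'.1)]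
    · rw [inner_eq_zero_symm]; exact h2
    · filter_upwards [Lp.coeFn_sub (cl S hf) (W.starProjection (cl S hf)), coe_cl S hf, hρ] with x h3 h4 h5
      rw [h3, Pi.sub_apply, h4, h5]
  · intro ε hε
    obtain ⟨n, hn⟩ : ∃ n : ℕ, ‖W.starProjection (cl S hf)
        - (V S ((n.factorial : ℕ) : ℤ)).starProjection (cl S hf)‖ ^ 2 ≤ ε := by
      have h1 : Tendsto (fun i : ℕ => ‖W.starProjection (cl S hf)
        - (V S ((i.factorial : ℕ) : ℤ)).starProjection (cl S hf)‖ ^ 2) atTop (𝓝 0) := by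
        have := ((tendsto_const_nhds.sub hlim).norm).pow 2 (f := fun i : ℕ => ‖W.starProjection (cl S hf)
          - (V S ((i.factorial : ℕ) : ℤ)).starProjection (cl S hf)‖)
        simpa using this
      exact (h1.eventually (ge_mem_nhds hε)).exists
    refine ⟨n.factorial, Nat.factorial_pos n, ?_⟩
    set P := (V S ((n.factorial : ℕ) : ℤ)).starProjection (cl S hf) with hP
    -- the value set
    obtain ⟨K, hK, h0, hK1, hKa, hfK, hKp⟩ : ∃ K : Set ℂ, IsClosed K ∧ (0 : ℂ) ∈ K ∧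
        (∀ z ∈ K, ‖z‖ ≤ 1) ∧
        (∀ (N : ℕ) (z : ℕ → ℂ), (∀ k, z k ∈ K) → (N : ℂ)⁻¹ * ∑ k ∈ range N, z k ∈ K) ∧
        (∀ x, f x ∈ K) ∧
        ((∀ x, ∃ y : ℝ, 0 ≤ y ∧ f x = y) → ∀ z ∈ K, ∃ y : ℝ, 0 ≤ y ∧ z = y) := by
      by_cases hp : ∀ x, ∃ y : ℝ, 0 ≤ y ∧ f x = y
      · refine ⟨{z : ℂ | ‖z‖ ≤ 1 ∧ 0 ≤ z.re ∧ z.im = 0}, pos_closed, by simp, fun z hz => hz.1,
          pos_avg, ?_, ?_⟩
        · intro x
          obtain ⟨y, hy, hxy⟩ := hp x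
          refine ⟨hf.2 x, ?_, ?_⟩
          · rw [hxy]; simpa using hy
          · rw [hxy]; simp
        · intro _ z hz
          exact ⟨z.re, hz.2.1, by apply Complex.ext <;> simp [hz.2.2]⟩
      · exact ⟨{z : ℂ | ‖z‖ ≤ 1}, disc_closed, by simp, fun z hz => hz, disc_avg, hf.2,
          fun h => absurd h hp⟩
    obtain ⟨G, hGB, hGK, hG⟩ := exists_rep S hK h0 hK1 P
      (proj_mem S ((n.factorial : ℕ) : ℤ) hf hK hKa hfK)
    have hPV : P ∈ V S ((n.factorial : ℕ) : ℤ) := Submodule.starProjection_apply_mem _ _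
    refine ⟨G, ⟨hGB, ?_⟩, ?_, ?_, ?_⟩
    · rw [mem_V] at hPV
      filter_upwards [hPV, hG, S.ae_sh _ hG] with x h1 h2 h3
      rw [← h2, ← h3, h1]
    · rw [sq_eq_norm S (W.starProjection (cl S hf) - P)]
      · exact hn
      · filter_upwards [Lp.coeFn_sub (W.starProjection (cl S hf)) P, hρ, hG] with x h3 h4 h5
        rw [h3, Pi.sub_apply, h4, h5]
    · intro G' hG'
      have h2 := (V S ((n.factorial : ℕ) : ℤ)).starProjection_inner_eq_zero (cl S hf)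
        (cl S hG'.1) (cl_mem_V S hG')
      rw [int_eq_inner S (cl S hf - P) (cl S hG'.1) _ _ _ (coe_cl S hG'.1)]
      · rw [inner_eq_zero_symm]; exact h2
      · filter_upwards [Lp.coeFn_sub (cl S hf) P, coe_cl S hf, hG] with x h3 h4 h5
        rw [h3, Pi.sub_apply, h4, h5]
    · intro hp x
      exact hKp hp _ (hGK x)

end Pool.Agent.Helper50.Rec
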